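import Pool.Agent.Helper19.HV.Curve

/-!
# Project HV, module DSR (Dupont-Sah degree reduction for five-term functions)
-/

set_option autoImplicit false

open Polynomial

namespace Pool.Agent.Helper19.HV

noncomputable section

open PL

private theorem dsr_gen {K N : Type} [Field K] [AddCommGroup N] [Module ℚ N]
    (Δ : K → N) (h : FT5 Δ) {X Y : K} (hX0 : X ≠ 0) (hX1 : X ≠ 1) (hY0 : Y ≠ 0) (hY1 : Y ≠ 1)
    (hY : Δ Y = 0) (h1 : Δ (X / Y) = 0) (h2 : Δ ((1 - X) / (1 - Y)) = 0)
    (h3 : Δ (((1 - X) / (1 - Y)) / (X / Y)) = 0) : Δ X = 0 := by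
  by_cases hXY : X = Y
  · rw [hXY, hY]
  have h5 := h.five X Y hX0 hX1 hY0 hY1 hXY
  have n1 : Y - 1 ≠ 0 := sub_ne_zero.2 hY1
  have n2 : 1 - Y ≠ 0 := sub_ne_zero.2 (Ne.symm hY1)
  have e1 : (Y - X) / (Y - 1) = 1 - (1 - X) / (1 - Y) := by
    rw [div_eq_iff n1, sub_mul, div_mul_eq_mul_div]
    rw [eq_sub_iff_add_eq, ← eq_sub_iff_add_eq', div_eq_iff n2]
    ring
  have e2 : X * (Y - 1) / (Y - X) = (1 - ((1 - X) / (1 - Y)) / (X / Y))⁻¹ := by
    have e3 : 1 - ((1 - X) / (1 - Y)) / (X / Y) = (Y - X) / (X * (Y - 1)) := by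
      field_simp
      ring
    rw [e3, inv_div]
  rw [e1, e2, h.one_sub, h.inv, h.one_sub, hY, h1, h2, h3] at h5
  simpa using h5.symm

private theorem dsr_one {K N : Type} [Field K] [AddCommGroup N] [Module ℚ N]
    (Δ : K → N) (h : FT5 Δ) : Δ 1 = 0 := by
  have := h.one_sub 0
  rwa [sub_zero, h.zero, neg_zero] at this

section

variable {F N : Type} [Field F] [AddCommGroup N] [Module ℚ N]

private theorem tne (a : F) : (RatFunc.X : RatFunc F) - RatFunc.C a ≠ 0 := by
  rw [← RatFunc.algebraMap_X, ← RatFunc.algebraMap_C, ← map_sub]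
  exact RatFunc.algebraMap_ne_zero (X_sub_C_ne_zero a)

private theorem cne {a b : F} (hab : a ≠ b) : (RatFunc.C a : RatFunc F) - RatFunc.C b ≠ 0 := by
  rw [← map_sub]
  exact (_root_.map_ne_zero _).2 (sub_ne_zero.2 hab)

private theorem dsr_L1 (Δ : RatFunc F → N) (h : FT5 Δ) (hc : ∀ c : F, Δ (RatFunc.C c) = 0)
    (hl : ∀ a b : F, a ≠ b → Δ ((RatFunc.X - RatFunc.C a) / RatFunc.C (b - a)) = 0)
    {a b c : F} (hab : a ≠ b) (hac : a ≠ c) (hbc : b ≠ c) :
    Δ ((RatFunc.X - RatFunc.C a) * (RatFunc.C b - RatFunc.C c) /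
      ((RatFunc.X - RatFunc.C c) * (RatFunc.C b - RatFunc.C a))) = 0 := by
  have ta := tne a
  have tb := tne b
  have tc := tne c
  have ba := cne hab.symm
  have ca := cne hac.symm
  have cb := cne hbc.symm
  have bc := cne hbc
  have h0 := hl a b hab
  have h1 := hl a c hac
  have h2 := hl b c hbc
  have h3 := hc ((c - a) / (b - a))
  rw [map_sub] at h0 h1 h2
  rw [map_div₀, map_sub, map_sub] at h3
  generalize (RatFunc.C a : RatFunc F) = A at *
  generalize (RatFunc.C b : RatFunc F) = B at *
  generalize (RatFunc.C c : RatFunc F) = G at *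
  generalize (RatFunc.X : RatFunc F) = T at *
  have hy1 : (T - A) / (B - A) ≠ 1 := by
    rw [Ne, div_eq_one_iff_eq ba]
    intro e
    exact tb (by linear_combination e)
  have hx1 : (G - A) / (B - A) ≠ 1 := by
    rw [Ne, div_eq_one_iff_eq ba]
    intro e
    exact cb (by linear_combination e)
  have hxy : (G - A) / (B - A) ≠ (T - A) / (B - A) := by
    rw [Ne, div_left_inj' ba]
    intro e
    exact tc (by linear_combination -e)
  have h5 := h.five ((G - A) / (B - A)) ((T - A) / (B - A)) (div_ne_zero ca ba) hx1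
    (div_ne_zero ta ba) hy1 hxy
  have e1 : (G - A) / (B - A) / ((T - A) / (B - A)) = ((T - A) / (G - A))⁻¹ := by
    rw [inv_div, div_div_div_cancel_right₀ ba]
  have e2 : ((T - A) / (B - A) - (G - A) / (B - A)) / ((T - A) / (B - A) - 1) =
      1 - ((T - B) / (G - B))⁻¹ := by
    have n1 : (T - A) / (B - A) - 1 = (T - B) / (B - A) := by
      field_simp
      ring
    have n2 : (T - A) / (B - A) - (G - A) / (B - A) = (T - G) / (B - A) := by
      rw [← sub_div]
      congr 1
      ring
    rw [n1, n2, div_div_div_cancel_right₀ ba, inv_div, eq_sub_iff_add_eq, ← add_div,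
      div_eq_one_iff_eq tb]
    ring
  have e3 : (G - A) / (B - A) * ((T - A) / (B - A) - 1) /
      ((T - A) / (B - A) - (G - A) / (B - A)) = 1 - (T - A) * (B - G) / ((T - G) * (B - A)) := by
    have n1 : (T - A) / (B - A) - 1 = (T - B) / (B - A) := by
      field_simp
      ring
    have n2 : (T - A) / (B - A) - (G - A) / (B - A) = (T - G) / (B - A) := by
      rw [← sub_div]
      congr 1
      ring
    rw [n1, n2]
    field_simp
    ring
  rw [e1, e2, e3, h.inv, h.one_sub, h.inv, h.one_sub, h0, h1, h2, h3] at h5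
  simpa using h5

/-- the claim for degree `d` -/
private def Cl (Δ : RatFunc F → N) (d : ℕ) : Prop := ∀ p q : F[X], p.natDegree ≤ d →
  q.natDegree ≤ d → Δ (algebraMap F[X] (RatFunc F) p / algebraMap F[X] (RatFunc F) q) = 0

private theorem exists_fac [IsAlgClosed F] {g : F[X]} {d : ℕ} (hg : g.natDegree = d + 1) :
    ∃ (a : F) (g' : F[X]), g = (X - C a) * g' ∧ g'.natDegree ≤ d := by
  obtain ⟨a, ha⟩ := IsAlgClosed.exists_root g (by
    intro h
    rw [natDegree_eq_of_degree_eq_some (n := 0) (by simpa using h)] at hg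
    omega)
  obtain ⟨g', hg'⟩ := dvd_iff_isRoot.2 ha
  refine ⟨a, g', hg', ?_⟩
  have hne : g' ≠ 0 := by
    rintro rfl
    rw [mul_zero] at hg'
    rw [hg', natDegree_zero] at hg
    omega
  rw [hg', natDegree_mul (X_sub_C_ne_zero a) hne, natDegree_X_sub_C] at hg
  omega

private theorem alg_X_sub (a : F) : algebraMap F[X] (RatFunc F) (X - C a) =
    RatFunc.X - RatFunc.C a := by
  rw [map_sub, RatFunc.algebraMap_X, RatFunc.algebraMap_C]

/-- common factor -/
private theorem dsr_common {Δ : RatFunc F → N} {d : ℕ} (hd : Cl Δ d) (a : F) (p q : F[X])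
    (hp : p.natDegree ≤ d) (hq : q.natDegree ≤ d) :
    Δ (algebraMap F[X] (RatFunc F) ((X - C a) * p) /
      algebraMap F[X] (RatFunc F) ((X - C a) * q)) = 0 := by
  rw [map_mul, map_mul, alg_X_sub, mul_div_mul_left _ _ (tne a)]
  exact hd p q hp hq

/-- Case A -/
private theorem dsr_A [IsAlgClosed F] (Δ : RatFunc F → N) (h : FT5 Δ)
    (hl : ∀ a b : F, a ≠ b → Δ ((RatFunc.X - RatFunc.C a) / RatFunc.C (b - a)) = 0)
    (d : ℕ) (hd : Cl Δ d) (g k p : F[X]) (hgk : g + k = p) (hg0 : g ≠ 0) (hk0 : k ≠ 0)
    (hp0 : p ≠ 0) (hg : g.natDegree ≤ d + 1) (hp : p.natDegree ≤ d) :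
    Δ (algebraMap F[X] (RatFunc F) g / algebraMap F[X] (RatFunc F) p) = 0 := by
  by_cases hgd : g.natDegree ≤ d
  · exact hd g p hgd hp
  have hg1 : g.natDegree = d + 1 := by omega
  have hk1 : k.natDegree = d + 1 := by
    have e : k = p - g := by rw [← hgk]; ring
    rw [e, natDegree_sub_eq_right_of_natDegree_lt (by omega), hg1]
  obtain ⟨a, g', eg, hg'⟩ := exists_fac hg1
  obtain ⟨b, k', ek, hk'⟩ := exists_fac hk1
  by_cases hab : a = b
  · subst hab
    have ep : p = (X - C a) * (g' + k') := by rw [← hgk, eg, ek]; ring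
    rw [eg, ep]
    exact dsr_common hd a g' (g' + k') hg' (natDegree_add_le_of_degree_le hg' hk')
  have ta := tne a
  have tb := tne b
  have ba := cne (Ne.symm hab)
  have hg'0 : algebraMap F[X] (RatFunc F) g' ≠ 0 := by
    apply RatFunc.algebraMap_ne_zero
    rintro rfl
    exact hg0 (by rw [eg, mul_zero])
  have hk'0 : algebraMap F[X] (RatFunc F) k' ≠ 0 := by
    apply RatFunc.algebraMap_ne_zero
    rintro rfl
    exact hk0 (by rw [ek, mul_zero])
  have hpK : algebraMap F[X] (RatFunc F) p ≠ 0 := RatFunc.algebraMap_ne_zero hp0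
  have hgK : algebraMap F[X] (RatFunc F) g ≠ 0 := RatFunc.algebraMap_ne_zero hg0
  have hkK : algebraMap F[X] (RatFunc F) k ≠ 0 := RatFunc.algebraMap_ne_zero hk0
  have hY := hl a b hab
  -- the three quotients
  have q1 := hd (C (b - a) * g') p ((natDegree_C_mul_le _ _).trans hg') hp
  have q2 := hd (C (-(b - a)) * k') p ((natDegree_C_mul_le _ _).trans hk') hp
  have q3 := hd (-k') g' (by rwa [natDegree_neg]) hg'
  rw [map_mul, RatFunc.algebraMap_C, map_sub] at q1
  rw [map_mul, RatFunc.algebraMap_C, map_neg, map_sub] at q2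
  rw [map_neg] at q3
  rw [map_sub] at hY
  have s1 : algebraMap F[X] (RatFunc F) g = (RatFunc.X - RatFunc.C a) *
      algebraMap F[X] (RatFunc F) g' := by rw [eg, map_mul, alg_X_sub]
  have s2 : algebraMap F[X] (RatFunc F) k = (RatFunc.X - RatFunc.C b) *
      algebraMap F[X] (RatFunc F) k' := by rw [ek, map_mul, alg_X_sub]
  have s3 : algebraMap F[X] (RatFunc F) g + algebraMap F[X] (RatFunc F) k =
      algebraMap F[X] (RatFunc F) p := by rw [← map_add, hgk]
  generalize algebraMap F[X] (RatFunc F) g = G at *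
  generalize algebraMap F[X] (RatFunc F) k = K at *
  generalize algebraMap F[X] (RatFunc F) p = P at *
  generalize algebraMap F[X] (RatFunc F) g' = G' at *
  generalize algebraMap F[X] (RatFunc F) k' = K' at *
  generalize (RatFunc.C a : RatFunc F) = A at *
  generalize (RatFunc.C b : RatFunc F) = B at *
  generalize (RatFunc.X : RatFunc F) = T at *
  have n1 : 1 - G / P = K / P := by
    rw [eq_div_iff hpK, sub_mul, div_mul_cancel₀ _ hpK, one_mul, ← s3]
    ring
  have n2 : 1 - (T - A) / (B - A) = -((T - B) / (B - A)) := by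
    field_simp
    ring
  refine dsr_gen Δ h (Y := (T - A) / (B - A)) (div_ne_zero hgK hpK) ?_ (div_ne_zero ta ba) ?_ hY
    ?_ ?_ ?_
  · intro e
    rw [e, sub_self] at n1
    exact div_ne_zero hkK hpK n1.symm
  · intro e
    rw [e, sub_self] at n2
    exact neg_ne_zero.2 (div_ne_zero tb ba) n2.symm
  · rw [s1]
    have e : (T - A) * G' / P / ((T - A) / (B - A)) = (B - A) * G' / P := by
      field_simp
    rw [e]
    exact q1
  · rw [n1, n2, s2]
    have e : (T - B) * K' / P / (-((T - B) / (B - A))) = -(B - A) * K' / P := by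
      field_simp
    rw [e]
    exact q2
  · rw [n1, n2, s2, s1]
    have e : (T - B) * K' / P / (-((T - B) / (B - A))) / ((T - A) * G' / P / ((T - A) / (B - A))) =
        -K' / G' := by
      field_simp
    rw [e]
    exact q3

theorem mDSR {F N : Type} [Field F] [IsAlgClosed F] [AddCommGroup N] [Module ℚ N]
    (Δ : RatFunc F → N) (h : FT5 Δ) (hc : ∀ c : F, Δ (RatFunc.C c) = 0)
    (hl : ∀ a b : F, a ≠ b → Δ ((RatFunc.X - RatFunc.C a) / RatFunc.C (b - a)) = 0) :
    ∀ x, Δ x = 0 := by
  have main : ∀ d : ℕ, Cl Δ d := by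
    intro d
    induction d with
    | zero =>
      intro p q hp hq
      rw [eq_C_of_natDegree_le_zero hp, eq_C_of_natDegree_le_zero hq, RatFunc.algebraMap_C,
        RatFunc.algebraMap_C, ← map_div₀]
      exact hc _
    | succ d ih =>
      intro g p hg hp
      by_cases hg0 : g = 0
      · rw [hg0, map_zero, zero_div, h.zero]
      by_cases hp0 : p = 0
      · rw [hp0, map_zero, div_zero, h.zero]
      obtain ⟨k, hk⟩ : ∃ k, k = p - g := ⟨_, rfl⟩
      have hgk : g + k = p := by rw [hk]; ring
      have hpK : algebraMap F[X] (RatFunc F) p ≠ 0 := RatFunc.algebraMap_ne_zero hp0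
      have hgK : algebraMap F[X] (RatFunc F) g ≠ 0 := RatFunc.algebraMap_ne_zero hg0
      by_cases hk0 : k = 0
      · rw [hk0, add_zero] at hgk
        rw [hgk, div_self hpK, dsr_one Δ h]
      have hkK : algebraMap F[X] (RatFunc F) k ≠ 0 := RatFunc.algebraMap_ne_zero hk0
      have hkd : k.natDegree ≤ d + 1 := by
        rw [hk]
        exact (natDegree_sub_le_of_le hp hg).trans (max_self _).le
      by_cases c1 : p.natDegree ≤ d
      · exact dsr_A Δ h hl d ih g k p hgk hg0 hk0 hp0 hg c1
      by_cases c2 : g.natDegree ≤ d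
      · have h1 := dsr_A Δ h hl d ih p (-k) g (by rw [← hgk]; ring) hp0 (neg_ne_zero.2 hk0) hg0
          hp c2
        have h2 := h.inv (algebraMap F[X] (RatFunc F) p / algebraMap F[X] (RatFunc F) g)
        rw [h1, inv_div, neg_zero] at h2
        exact h2
      by_cases c3 : k.natDegree ≤ d
      · have h1 := dsr_A Δ h hl d ih p (-g) k (by rw [← hgk]; ring) hp0 (neg_ne_zero.2 hg0) hk0
          hp c3
        have h2 := h.inv (algebraMap F[X] (RatFunc F) p / algebraMap F[X] (RatFunc F) k)
        rw [h1, inv_div, neg_zero] at h2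
        have h3 := h.one_sub (algebraMap F[X] (RatFunc F) k / algebraMap F[X] (RatFunc F) p)
        rw [h2, neg_zero] at h3
        have e : 1 - algebraMap F[X] (RatFunc F) k / algebraMap F[X] (RatFunc F) p =
            algebraMap F[X] (RatFunc F) g / algebraMap F[X] (RatFunc F) p := by
          rw [eq_div_iff hpK, sub_mul, div_mul_cancel₀ _ hpK, one_mul, ← map_sub, ← hgk]
          congr 1
          ring
        rwa [e] at h3
      -- Case B
      obtain ⟨a, g', eg, hg'⟩ := exists_fac (g := g) (d := d) (by omega)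
      obtain ⟨b, k', ek, hk'⟩ := exists_fac (g := k) (d := d) (by omega)
      obtain ⟨c, p', ep, hp'⟩ := exists_fac (g := p) (d := d) (by omega)
      by_cases hab : a = b
      · subst hab
        have e : p = (X - C a) * (g' + k') := by rw [← hgk, eg, ek]; ring
        rw [eg, e]
        exact dsr_common ih a g' (g' + k') hg' (natDegree_add_le_of_degree_le hg' hk')
      by_cases hac : a = c
      · subst hac
        rw [eg, ep]
        exact dsr_common ih a g' p' hg' hp'
      by_cases hbc : b = c
      · subst hbc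
        have e : g = (X - C b) * (p' - k') := by
          rw [mul_sub, ← ep, ← ek, ← hgk]
          ring
        rw [e, ep]
        exact dsr_common ih b (p' - k') p' ((natDegree_sub_le_of_le hp' hk').trans (max_self _).le) hp'
      have hY := dsr_L1 Δ h hc hl hab hac hbc
      have ta := tne a
      have tb := tne b
      have tc := tne c
      have ba := cne (Ne.symm hab)
      have bc := cne hbc
      have ac := cne hac
      have hg'0 : algebraMap F[X] (RatFunc F) g' ≠ 0 := by
        apply RatFunc.algebraMap_ne_zero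
        rintro rfl
        exact hg0 (by rw [eg, mul_zero])
      have hk'0 : algebraMap F[X] (RatFunc F) k' ≠ 0 := by
        apply RatFunc.algebraMap_ne_zero
        rintro rfl
        exact hk0 (by rw [ek, mul_zero])
      have hp'0 : algebraMap F[X] (RatFunc F) p' ≠ 0 := by
        apply RatFunc.algebraMap_ne_zero
        rintro rfl
        exact hp0 (by rw [ep, mul_zero])
      have q1 := ih (C (b - a) * g') (C (b - c) * p') ((natDegree_C_mul_le _ _).trans hg')
        ((natDegree_C_mul_le _ _).trans hp')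
      have q2 := ih (C (a - b) * k') (C (a - c) * p') ((natDegree_C_mul_le _ _).trans hk')
        ((natDegree_C_mul_le _ _).trans hp')
      have q3 := ih (C (-(b - c)) * k') (C (a - c) * g') ((natDegree_C_mul_le _ _).trans hk')
        ((natDegree_C_mul_le _ _).trans hg')
      rw [map_mul, map_mul, RatFunc.algebraMap_C, RatFunc.algebraMap_C, map_sub, map_sub] at q1 q2
      rw [map_mul, map_mul, RatFunc.algebraMap_C, RatFunc.algebraMap_C, map_neg, map_sub,
        map_sub] at q3
      have s1 : algebraMap F[X] (RatFunc F) g = (RatFunc.X - RatFunc.C a) *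
          algebraMap F[X] (RatFunc F) g' := by rw [eg, map_mul, alg_X_sub]
      have s2 : algebraMap F[X] (RatFunc F) k = (RatFunc.X - RatFunc.C b) *
          algebraMap F[X] (RatFunc F) k' := by rw [ek, map_mul, alg_X_sub]
      have s4 : algebraMap F[X] (RatFunc F) p = (RatFunc.X - RatFunc.C c) *
          algebraMap F[X] (RatFunc F) p' := by rw [ep, map_mul, alg_X_sub]
      have s3 : algebraMap F[X] (RatFunc F) g + algebraMap F[X] (RatFunc F) k =
          algebraMap F[X] (RatFunc F) p := by rw [← map_add, hgk]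
      generalize algebraMap F[X] (RatFunc F) g = G at *
      generalize algebraMap F[X] (RatFunc F) k = K at *
      generalize algebraMap F[X] (RatFunc F) p = P at *
      generalize algebraMap F[X] (RatFunc F) g' = G' at *
      generalize algebraMap F[X] (RatFunc F) k' = K' at *
      generalize algebraMap F[X] (RatFunc F) p' = P' at *
      generalize (RatFunc.C a : RatFunc F) = A at *
      generalize (RatFunc.C b : RatFunc F) = B at *
      generalize (RatFunc.C c : RatFunc F) = D at *
      generalize (RatFunc.X : RatFunc F) = T at *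
      have n1 : 1 - G / P = K / P := by
        rw [eq_div_iff hpK, sub_mul, div_mul_cancel₀ _ hpK, one_mul, ← s3]
        ring
      have n2 : 1 - (T - A) * (B - D) / ((T - D) * (B - A)) =
          (T - B) * (A - D) / ((T - D) * (A - B)) := by
        have ab : A - B ≠ 0 := by
          intro e
          exact ba (by linear_combination -e)
        field_simp
        ring
      have ab : A - B ≠ 0 := by
        intro e
        exact ba (by linear_combination -e)
      refine dsr_gen Δ h (Y := (T - A) * (B - D) / ((T - D) * (B - A))) (div_ne_zero hgK hpK) ?_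
        (div_ne_zero (mul_ne_zero ta bc) (mul_ne_zero tc ba)) ?_ hY ?_ ?_ ?_
      · intro e
        rw [e, sub_self] at n1
        exact div_ne_zero hkK hpK n1.symm
      · intro e
        rw [e, sub_self] at n2
        exact div_ne_zero (mul_ne_zero tb ac) (mul_ne_zero tc ab) n2.symm
      · rw [s1, s4]
        have e : (T - A) * G' / ((T - D) * P') / ((T - A) * (B - D) / ((T - D) * (B - A))) =
            (B - A) * G' / ((B - D) * P') := by
          field_simp
        rw [e]
        exact q1
      · rw [n1, n2, s2, s4]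
        have e : (T - B) * K' / ((T - D) * P') / ((T - B) * (A - D) / ((T - D) * (A - B))) =
            (A - B) * K' / ((A - D) * P') := by
          field_simp
        rw [e]
        exact q2
      · rw [n1, n2, s2, s1, s4]
        have e : (T - B) * K' / ((T - D) * P') / ((T - B) * (A - D) / ((T - D) * (A - B))) /
            ((T - A) * G' / ((T - D) * P') / ((T - A) * (B - D) / ((T - D) * (B - A)))) =
            -(B - D) * K' / ((A - D) * G') := by
          field_simp
          ring
        rw [e]
        exact q3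
  intro x
  have hx := x.num_div_denom
  rw [← hx]
  exact main (max x.num.natDegree x.denom.natDegree) _ _ (le_max_left _ _) (le_max_right _ _)

end

end

end Pool.Agent.Helper19.HV
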