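import Pool.Agent.Helper19.HV.StC

/-!
# Project HV, module QSU (surjectivity on cohomology)
-/

set_option autoImplicit false

namespace Pool.Agent.Helper19.HV

noncomputable section

open PL

section

variable {F : Type} [Field F] {X : Set (P1 F)} {d : Dif (RatFunc F)} {d' : Dif F}
    {r : Res F X} {c : ∀ k j : ℕ, Γ F k j →ₗ[ℚ] Γ (RatFunc F) k j}
    {m : ∀ (_ : F) (k j : ℕ), Γ F k j →ₗ[ℚ] Γ (RatFunc F) k (j + 1)}

/-- evaluation as a linear map -/
private def evL (k j : ℕ) (x : X) : ΓP F X k j →ₗ[ℚ] Γ F k j := Finsupp.lapply x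

private theorem ev_eq (k j : ℕ) (x : X) (y : ΓP F X k j) : ev k j y x = evL k j x y := rfl

private theorem qs_res (hR : Rel d d' r c m) (k j : ℕ) (y : F →₀ Γ F k j) (b : F)
    (hb : some b ∈ X) :
    ev k j (r k j (y.sum fun a ya => m a k j ya)) ⟨some b, hb⟩ = y b := by
  have h1 : ev k j (r k j (y.sum fun a ya => m a k j ya)) ⟨some b, hb⟩ =
      (evL k j ⟨some b, hb⟩ ∘ₗ r k j) (y.sum fun a ya => m a k j ya) := rfl
  rw [h1, Finsupp.sum, map_sum, Finset.sum_eq_single b]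
  · exact hR.rm b hb k j (y b)
  · intro a _ hab
    exact hR.rm0 a b hb hab k j (y a)
  · intro hn
    rw [Finsupp.notMem_support_iff.1 hn, map_zero, map_zero]

private theorem qs_d (hR : Rel d d' r c m) (k j : ℕ) (y : F →₀ Γ F (k + 1) j) :
    d k (j + 1) (y.sum fun a ya => m a (k + 1) j ya) =
      (Finsupp.mapRange.linearMap (d' k j) y).sum fun a ya => m a k (j + 1) ya := by
  have h1 : (Finsupp.mapRange.linearMap (d' k j) y).sum (fun a ya => m a k (j + 1) ya) =
      y.sum fun a ya => m a k (j + 1) (d' k j ya) :=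
    Finsupp.sum_mapRange_index (hf := map_zero (d' k j)) (fun a => map_zero _)
  rw [h1, Finsupp.sum, Finsupp.sum, map_sum]
  exact Finset.sum_congr rfl (fun a _ => hR.dm a k j (y a))

open Classical in
private theorem qs_split (k j : ℕ) (y : F →₀ Γ F k j) :
    (y.sum fun a ya => m a k j ya) =
      ((y.subtypeDomain fun a => some a ∉ X).sum fun a ya => m a.1 k j ya) +
        (y.filter fun a => some a ∈ X).sum fun a ya => m a k j ya := by
  have h1 := Finsupp.filter_add_filter_not y (fun a => some a ∈ X)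
  have h0 : (y.sum fun a ya => m a k j ya) = ((y.filter fun a => some a ∈ X) +
      y.filter fun a => ¬ some a ∈ X).sum fun a ya => m a k j ya := by rw [h1]
  rw [h0, Finsupp.sum_add_index' (fun a => map_zero _) (fun a u v => map_add _ u v)]
  refine Eq.trans (add_comm _ _) ?_
  congr 1
  have h2 : (y.subtypeDomain fun a => some a ∉ X) =
      (y.filter fun a => ¬ some a ∈ X).subtypeDomain fun a => some a ∉ X := by
    ext1 a
    rw [Finsupp.subtypeDomain_apply, Finsupp.subtypeDomain_apply,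
      Finsupp.filter_apply_pos (fun a : F => ¬ some a ∈ X) y a.2]
  rw [h2]
  refine (Finsupp.sum_subtypeDomain_index (h := fun a ya => m a k j ya) ?_).symm
  intro a ha
  rw [Finsupp.support_filter, Finset.mem_filter] at ha
  exact ha.2

private theorem qs_ext {M : Type} [AddCommGroup M] (β : X →₀ M) : ∃ u : F →₀ M,
    (∀ (a : F) (h : some a ∈ X), u a = β ⟨some a, h⟩) ∧ ∀ a : F, some a ∉ X → u a = 0 := by
  classical
  have hfin : (Function.support fun a : F =>
      if h : some a ∈ X then β ⟨some a, h⟩ else 0).Finite := by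
    have h1 : (Subtype.val '' (β.support : Set X)).Finite := (Finset.finite_toSet _).image _
    refine (h1.preimage (f := fun a : F => (some a : P1 F))
      (fun a _ b _ h => Option.some.inj h)).subset ?_
    intro a ha
    rw [Function.mem_support] at ha
    by_cases h : some a ∈ X
    · rw [dif_pos h] at ha
      exact ⟨⟨some a, h⟩, Finset.mem_coe.2 (Finsupp.mem_support_iff.2 ha), rfl⟩
    · rw [dif_neg h] at ha
      exact absurd rfl ha
  refine ⟨Finsupp.ofSupportFinite _ hfin, ?_, ?_⟩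
  · intro a h
    rw [Finsupp.ofSupportFinite_coe, dif_pos h]
  · intro a h
    rw [Finsupp.ofSupportFinite_coe, dif_neg h]

/-- the coefficients of a cocycle are cocycles -/
private theorem qs_cyc (hR : Rel d d' r c m) (k j : ℕ) (a : Γ (RatFunc F) (k + 1) (j + 1))
    (z : Γ F (k + 1) (j + 1)) (y : F →₀ Γ F (k + 1) j) (a' : Γ (RatFunc F) (k + 2) j)
    (ha : a = c (k + 1) (j + 1) z + (y.sum fun x yx => m x (k + 1) j yx) + d (k + 1) j a')
    (h0 : d k (j + 1) a = 0) :
    d' k (j + 1) z = 0 ∧ Finsupp.mapRange.linearMap (d' k j) y = 0 := by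
  apply hR.cmi k (j + 1)
  rw [ha, map_add, map_add, hR.dc, qs_d hR, hR.dd, add_zero] at h0
  exact h0

/-- the middle step -/
private theorem qs_mid (hR : Rel d d' r c m) (hX : none ∉ X) (k j : ℕ)
    (a : Γ (RatFunc F) k (j + 2)) (b : ΓP F X (k + 1) j)
    (z : Γ F k (j + 2)) (y : F →₀ Γ F k (j + 1)) (a' : Γ (RatFunc F) (k + 1) (j + 1))
    (ha : a = c k (j + 2) z + (y.sum fun x yx => m x k (j + 1) yx) + d k (j + 1) a')
    (hr : ∀ x, ev k (j + 1) (r k (j + 1) a) x = d' k j (ev (k + 1) j b x)) :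
    ∃ a'' : Γ (RatFunc F) (k + 1) (j + 1), (∀ x, ev (k + 1) j (r (k + 1) j a'') x =
        ev (k + 1) j b x) ∧
      a = c k (j + 2) z + ((y.subtypeDomain fun a => some a ∉ X).sum fun x yx =>
        m x.1 k (j + 1) yx) + d k (j + 1) a'' := by
  classical
  obtain ⟨u, hu1, hu2⟩ := qs_ext (F := F) (X := X) (M := Γ F (k + 1) j) (b - r (k + 1) j a')
  have hu : ∀ (t : F) (ht : some t ∈ X), u t =
      ev (k + 1) j b ⟨some t, ht⟩ - ev (k + 1) j (r (k + 1) j a') ⟨some t, ht⟩ := hu1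
  refine ⟨a' + u.sum fun x ux => m x (k + 1) j ux, ?_, ?_⟩
  · rintro ⟨x, hx⟩
    match x, hx with
    | none, hx => exact absurd hx hX
    | some t, hx =>
      have h1 := qs_res hR (k + 1) j u t hx
      rw [map_add, ev_eq, map_add, ← ev_eq, ← ev_eq, h1, hu t hx]
      abel
  · have h2 : Finsupp.mapRange.linearMap (d' k j) u = y.filter fun a => some a ∈ X := by
      ext1 t
      have e1 : (Finsupp.mapRange.linearMap (d' k j) u) t = d' k j (u t) := rfl
      rw [e1]
      by_cases ht : some t ∈ X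
      · rw [Finsupp.filter_apply_pos (fun a => some a ∈ X) y ht, hu t ht, map_sub]
        have h3 := hr ⟨some t, ht⟩
        have h4 := qs_res hR k (j + 1) y t ht
        rw [ha, map_add, map_add, ev_eq, map_add, map_add, ← ev_eq, ← ev_eq, ← ev_eq, h4, hR.rc,
          hR.rd, zero_add] at h3
        rw [← h3]
        abel
      · rw [Finsupp.filter_apply_neg (fun a => some a ∈ X) y ht, hu2 t ht, map_zero]
    rw [map_add, qs_d hR, h2]
    conv_lhs => rw [ha, qs_split (X := X) k (j + 1) y]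
    abel

/-- the middle step, one term -/
private theorem qs_mid0 (hR : Rel d d' r c m) (k : ℕ)
    (a : Γ (RatFunc F) k 1) (z : Γ F k 1) (y : F →₀ Γ F k 0) (a' : Γ (RatFunc F) (k + 1) 0)
    (ha : a = c k 1 z + (y.sum fun x yx => m x k 0 yx) + d k 0 a')
    (hr : ∀ x, ev k 0 (r k 0 a) x = 0) :
      a = c k 1 z + ((y.subtypeDomain fun a => some a ∉ X).sum fun x yx =>
        m x.1 k 0 yx) + d k 0 a' := by
  classical
  have h2 : (y.filter fun a => some a ∈ X) = 0 := by
    ext1 t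
    by_cases ht : some t ∈ X
    · rw [Finsupp.filter_apply_pos (fun a => some a ∈ X) y ht]
      have h3 := hr ⟨some t, ht⟩
      have h4 := qs_res hR k 0 y t ht
      rw [ha, map_add, map_add, ev_eq, map_add, map_add, ← ev_eq, ← ev_eq, ← ev_eq, h4, hR.rc,
        hR.rd0, zero_add, add_zero] at h3
      exact h3
    · rw [Finsupp.filter_apply_neg (fun a => some a ∈ X) y ht]
      rfl
  conv_lhs => rw [ha, qs_split (X := X) k 0 y, h2, Finsupp.sum_zero_index, add_zero]

end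

theorem mQSU : sIIM → sQSU := by
  intro hII F _ X hX d d' r c m hR hE k j hkj w hw
  have hsub : ∀ (k j : ℕ) (y : F →₀ Γ F (k + 1) j),
      Finsupp.mapRange.linearMap (d' k j) y = 0 →
      Finsupp.mapRange.linearMap (d' k j) (y.subtypeDomain fun a => some a ∉ X) = 0 := by
    intro k j y hy
    ext1 a
    exact DFunLike.congr_fun hy a.1
  obtain rfl | rfl | rfl | rfl | rfl : j = 0 ∨ j = 1 ∨ j = 2 ∨ j = 3 ∨ j = 4 := by omega
  · -- (4, 0)
    obtain rfl : k = 4 := by omega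
    have key : ∀ w : Γ (RatFunc F) 4 0, d 3 0 w = 0 → ∃ z : Γ F 4 0, d' 3 0 z = 0 ∧
        w = c 4 0 z := by
      intro w h1
      obtain ⟨z, hz⟩ : w ∈ II c m 4 0 := hE.e4 w (by rw [h1]; exact Submodule.zero_mem _)
      refine ⟨z, ?_, hz.symm⟩
      apply hR.ci
      rw [← hR.dc, hz, h1]
    obtain ⟨z, hz1, hz2⟩ := key w hw
    refine ⟨z, ?_, sub_eq_zero.2 hz2⟩
    change (d' 3 0 z, (0 : Co X →₀ Γ F 3 0)) = 0
    rw [hz1]
    rfl
  · -- (3, 1)
    obtain rfl : k = 3 := by omega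
    have key : ∀ w : Γ (RatFunc F) 3 1, d 2 1 w = 0 → r 3 0 w = 0 →
        ∃ (z : Γ F 3 1) (y : F →₀ Γ F 3 0) (a' : Γ (RatFunc F) 4 0), d' 2 1 z = 0 ∧
          Finsupp.mapRange.linearMap (d' 2 0) (y.subtypeDomain fun a => some a ∉ X) = 0 ∧
          w = c 3 1 z + ((y.subtypeDomain fun a => some a ∉ X).sum fun x yx =>
            m x.1 3 0 yx) + d 3 0 a' := by
      intro w h11 h12
      obtain ⟨a', ha'⟩ := hE.e3 w (by rw [h11]; exact Submodule.zero_mem _)
      obtain ⟨z, y, hzy⟩ := (hII F c m 3 0 _).1 ha'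
      have ha : w = c 3 1 z + (y.sum fun x yx => m x 3 0 yx) + d 3 0 a' := by
        rw [← hzy]; exact (sub_add_cancel w _).symm
      obtain ⟨c1, c2⟩ := qs_cyc hR 2 0 w z y a' ha h11
      exact ⟨z, y, a', c1, hsub 2 0 y c2, qs_mid0 (X := X) hR 3 w z y a' ha
        (fun x => by rw [h12]; rfl)⟩
    have h1 : (d 2 1 w, r 3 0 w) = (0 : Γ (RatFunc F) 2 2 × ΓP F X 3 0) := hw
    obtain ⟨z, y, a', e1, e2, e3⟩ := key w (congrArg Prod.fst h1) (congrArg Prod.snd h1)
    refine ⟨(z, y.subtypeDomain fun a => some a ∉ X), ?_, a',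
      eq_sub_of_add_eq ((add_comm _ _).trans e3.symm)⟩
    change (d' 2 1 z, Finsupp.mapRange.linearMap (d' 2 0)
      (y.subtypeDomain fun a => some a ∉ X)) = 0
    rw [e1, e2]
    rfl
  · -- (2, 2)
    obtain rfl : k = 2 := by omega
    have key : ∀ (a : Γ (RatFunc F) 2 2) (b : ΓP F X 3 0), d 1 2 a = 0 →
        r 2 1 a = dΓP X d' 2 0 b →
        ∃ (z : Γ F 2 2) (y : F →₀ Γ F 2 1) (a'' : Γ (RatFunc F) 3 1), d' 1 2 z = 0 ∧
          Finsupp.mapRange.linearMap (d' 1 1) (y.subtypeDomain fun a => some a ∉ X) = 0 ∧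
          r 3 0 a'' = b ∧ a = c 2 2 z + ((y.subtypeDomain fun a => some a ∉ X).sum fun x yx =>
            m x.1 2 1 yx) + d 2 1 a'' := by
      intro a b h11 h12
      obtain ⟨a', ha'⟩ := hE.e2 a (by rw [h11]; exact Submodule.zero_mem _)
      obtain ⟨z, y, hzy⟩ := (hII F c m 2 1 _).1 ha'
      have ha : a = c 2 2 z + (y.sum fun x yx => m x 2 1 yx) + d 2 1 a' := by
        rw [← hzy]; exact (sub_add_cancel a _).symm
      obtain ⟨c1, c2⟩ := qs_cyc hR 1 1 a z y a' ha h11
      obtain ⟨a'', ha1, ha2⟩ := qs_mid hR hX 2 0 a b z y a' ha (fun x => by rw [h12]; rfl)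
      exact ⟨z, y, a'', c1, hsub 1 1 y c2, Finsupp.ext (fun x => ha1 x), ha2⟩
    obtain ⟨a, b⟩ : Γ (RatFunc F) 2 2 × ΓP F X 3 0 := w
    have h1 : (d 1 2 a, r 2 1 a - dΓP X d' 2 0 b) =
      (0 : Γ (RatFunc F) 1 3 × ΓP F X 2 1) := hw
    obtain ⟨z, y, a'', e1, e2, e3, e4⟩ := key a b (congrArg Prod.fst h1)
      (sub_eq_zero.1 (congrArg Prod.snd h1))
    refine ⟨(z, y.subtypeDomain fun a => some a ∉ X), ?_, a'', ?_⟩
    · change (d' 1 2 z, Finsupp.mapRange.linearMap (d' 1 1)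
        (y.subtypeDomain fun a => some a ∉ X)) = 0
      rw [e1, e2]
      rfl
    · refine eq_sub_of_add_eq (Prod.ext ((add_comm _ _).trans e4.symm) ?_)
      change r 3 0 a'' + 0 = b
      rw [add_zero, e3]
  · -- (1, 3)
    obtain rfl : k = 1 := by omega
    have key : ∀ (a : Γ (RatFunc F) 1 3) (b : ΓP F X 2 1), d 0 3 a = 0 →
        r 1 2 a = dΓP X d' 1 1 b →
        ∃ (z : Γ F 1 3) (y : F →₀ Γ F 1 2) (a'' : Γ (RatFunc F) 2 2), d' 0 3 z = 0 ∧
          Finsupp.mapRange.linearMap (d' 0 2) (y.subtypeDomain fun a => some a ∉ X) = 0 ∧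
          r 2 1 a'' = b ∧ a = c 1 3 z + ((y.subtypeDomain fun a => some a ∉ X).sum fun x yx =>
            m x.1 1 2 yx) + d 1 2 a'' := by
      intro a b h11 h12
      obtain ⟨a', ha'⟩ := hE.e1 a
      obtain ⟨z, y, hzy⟩ := (hII F c m 1 2 _).1 ha'
      have ha : a = c 1 3 z + (y.sum fun x yx => m x 1 2 yx) + d 1 2 a' := by
        rw [← hzy]; exact (sub_add_cancel a _).symm
      obtain ⟨c1, c2⟩ := qs_cyc hR 0 2 a z y a' ha h11
      obtain ⟨a'', ha1, ha2⟩ := qs_mid hR hX 1 1 a b z y a' ha (fun x => by rw [h12]; rfl)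
      exact ⟨z, y, a'', c1, hsub 0 2 y c2, Finsupp.ext (fun x => ha1 x), ha2⟩
    obtain ⟨a, b⟩ : Γ (RatFunc F) 1 3 × ΓP F X 2 1 := w
    have h1 : (d 0 3 a, r 1 2 a - dΓP X d' 1 1 b) =
      (0 : Γ (RatFunc F) 0 4 × ΓP F X 1 2) := hw
    obtain ⟨z, y, a'', e1, e2, e3, e4⟩ := key a b (congrArg Prod.fst h1)
      (sub_eq_zero.1 (congrArg Prod.snd h1))
    refine ⟨(z, y.subtypeDomain fun a => some a ∉ X), ?_, (a'', 0), ?_⟩
    · change (d' 0 3 z, Finsupp.mapRange.linearMap (d' 0 2)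
        (y.subtypeDomain fun a => some a ∉ X)) = 0
      rw [e1, e2]
      rfl
    · refine eq_sub_of_add_eq (Prod.ext ((add_comm _ _).trans e4.symm) ?_)
      change r 2 1 a'' - dΓP X d' 2 0 0 + 0 = b
      rw [add_zero, map_zero, sub_zero, e3]
  · -- (0, 4)
    obtain rfl : k = 0 := by omega
    obtain ⟨a, b⟩ : Γ (RatFunc F) 0 4 × ΓP F X 1 2 := w
    obtain ⟨u, hu1, hu2⟩ := qs_ext (F := F) (X := X) (M := Γ F 1 2) b
    obtain ⟨v, hv⟩ : ∃ v : Γ (RatFunc F) 1 3, v = u.sum fun x ux => m x 1 2 ux := ⟨_, rfl⟩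
    have e2 : r 1 2 v = b := by
      rw [hv]
      apply Finsupp.ext
      rintro ⟨x, hx⟩
      match x, hx with
      | none, hx => exact absurd hx hX
      | some t, hx => exact (qs_res hR 1 2 u t hx).trans (hu1 t hx)
    refine ⟨(0, 0), trivial, (v, 0), ?_⟩
    refine eq_sub_of_add_eq (Prod.ext rfl ?_)
    change r 1 2 v - dΓP X d' 1 1 0 + 0 = b
    rw [add_zero, map_zero, sub_zero, e2]

end

end Pool.Agent.Helper19.HV
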