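import Pool.Agent.Helper19.HV.StC
import Pool.Agent.Helper91.PL.A2

/-!
# Project HV, module RRD (residues commute with the differentials)
-/

set_option autoImplicit false

namespace Pool.Agent.Helper19.HV

noncomputable section

open PL

section

variable {F : Type} [Field F] {a : F}

private theorem rr_unit {n : ℕ} {u : Fin n → RatFunc F} {c : Fin n → F} {g : RatFunc F} {cg : F}
    (hg : UnitAt a g cg) (hu : ∀ i, UnitAt a (u i) (c i)) : ∀ i : Fin (n + 1),
      UnitAt a ((Fin.cons g u : Fin (n + 1) → RatFunc F) i)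
        ((Fin.cons cg c : Fin (n + 1) → F) i) := by
  intro i
  refine Fin.cases ?_ ?_ i
  · exact hg
  · intro i
    exact hu i

private theorem rr_cons {G : Type} [Field G] {n : ℕ} (u : Fin n → G) (g : G) :
    (Fin.cons (lg g) (fun i => lg (u i)) : Fin (n + 1) → V G) =
      fun i => lg ((Fin.cons g u : Fin (n + 1) → G) i) := by
  funext i
  refine Fin.cases ?_ ?_ i
  · rfl
  · intro i
    rfl

private theorem rr_snoc {n : ℕ} (u : Fin n → RatFunc F) (g : RatFunc F) (e : V (RatFunc F)) :
    (Fin.cons (lg g) (Fin.snoc (α := fun _ => V (RatFunc F)) (fun i => lg (u i)) e) :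
      Fin (n + 1 + 1) → V (RatFunc F)) = Fin.snoc (α := fun _ => V (RatFunc F))
        (fun i => lg ((Fin.cons g u : Fin (n + 1) → RatFunc F) i)) e := by
  rw [← rr_cons]
  exact Fin.cons_snoc_eq_snoc_cons _ _ _

private theorem rr_V (hGNA : sGNA)
    {ρ : ∀ k j : ℕ, Γ (RatFunc F) k (j + 1) →ₗ[ℚ] Γ F k j} (hρ : IsR1 a ρ)
    {g : RatFunc F} {cg : F} (hg : UnitAt a g cg) (hl : lg cg = 0) (j : ℕ)
    (μ : W (RatFunc F) (j + 1)) : ρ 1 j (wdg (RatFunc F) (j + 1) (lg g) μ) = 0 := by
  let ρ1 : W (RatFunc F) (j + 2) →ₗ[ℚ] W F (j + 1) := ρ 1 j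
  have h : ρ1 ∘ₗ wdg (RatFunc F) (j + 1) (lg g) = 0 := by
    apply hGNA F (W F (j + 1)) a j
    · intro u c hu
      rw [LinearMap.comp_apply, LinearMap.zero_apply, wdg_pr, rr_cons]
      exact hρ.one0 j _ _ (rr_unit hg hu)
    · intro u c hu
      rw [LinearMap.comp_apply, LinearMap.zero_apply, wdg_pr, rr_snoc]
      refine (hρ.one j _ _ (rr_unit hg hu)).trans ?_
      exact (pr F (j + 1)).map_coord_zero 0 hl
  exact LinearMap.congr_fun h μ

private theorem rr_T (hGNA : sGNA)
    {ρ : ∀ k j : ℕ, Γ (RatFunc F) k (j + 1) →ₗ[ℚ] Γ F k j} (hρ : IsR1 a ρ) (q j : ℕ)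
    (x : P1 (RatFunc F)) (hx : sym (q + 2) (val a x) = 0) (l : W (RatFunc F) (j + 1)) :
    ρ (q + 2) j (tm q (j + 1) x l) = 0 := by
  have h : ρ (q + 2) j ∘ₗ tmL q (j + 1) x = 0 := by
    apply hGNA F (Γ F (q + 2) j) a j
    · intro u c hu
      exact hρ.two0 q j x u c hu
    · intro u c hu
      exact (hρ.two q j x u c hu).trans (tm_of_sym hx _ _)
  exact LinearMap.congr_fun h l

private theorem rr_cases (x : P1 (RatFunc F)) : (∀ q : ℕ, sym (q + 2) (val a x) = 0) ∧
    (val a x = none ∨ val a x = some 0) ∨ ∃ f c, x = some f ∧ UnitAt a f c := by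
  by_cases h0 : val a x = none
  · left
    exact ⟨fun q => by rw [h0]; exact sym_none q, Or.inl h0⟩
  by_cases h1 : val a x = some 0
  · left
    exact ⟨fun q => by rw [h1]; exact sym_zero q, Or.inr h1⟩
  right
  match x, h0, h1 with
  | none, h0, _ => exact absurd rfl h0
  | some f, h0, h1 =>
    obtain ⟨c, hc⟩ := Option.ne_none_iff_exists'.1 h0
    refine ⟨f, c, rfl, hc, ?_⟩
    rintro rfl
    exact h1 hc

private theorem rr_one_sub {f : RatFunc F} {c : F} (h : val a (some f) = some c) :
    val a (some (1 - f)) = some (1 - c) := by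
  have h1 := val_mul (val_C a (-1)) h
  have h2 := val_add (val_C a 1) h1
  have e1 : (1 - f : RatFunc F) = RatFunc.C 1 + RatFunc.C (-1) * f := by
    rw [map_one, map_neg, map_one]
    ring
  rw [e1, h2]
  congr 1
  ring

private theorem rr_L (hGNA : sGNA)
    {ρ : ∀ k j : ℕ, Γ (RatFunc F) k (j + 1) →ₗ[ℚ] Γ F k j} (hρ : IsR1 a ρ)
    (x : P1 (RatFunc F)) (h : val a x = none ∨ val a x = some 0 ∨ val a x = some 1) (j : ℕ)
    (l : W (RatFunc F) j) :
    ρ 1 j (wdg (RatFunc F) (j + 1) (cl1 x) (wdg (RatFunc F) j (cl x) l)) = 0 := by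
  have hl1 : lg (1 : F) = 0 := lg_one
  match x, h with
  | none, _ =>
    have e : cl (none : P1 (RatFunc F)) = 0 := rfl
    rw [e, wdg_zero, map_zero]
    exact map_zero _
  | some f, h =>
    have e1 : cl1 (some f) = lg (1 - f) := rfl
    have e2 : cl (some f) = lg f := rfl
    rw [e1, e2]
    rcases h with h | h | h
    · have hf0 : f ≠ 0 := by
        rintro rfl
        have := val_C a (0 : F)
        rw [map_zero] at this
        rw [this] at h
        exact absurd h (by simp)
      have hf1 : f ≠ 1 := by
        rintro rfl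
        have := val_C a (1 : F)
        rw [map_one] at this
        rw [this] at h
        exact absurd h (by simp)
      obtain ⟨g, hg⟩ : ∃ g, g = f⁻¹ + RatFunc.C (-1) := ⟨_, rfl⟩
      have hgu : UnitAt a g (-1) := by
        constructor
        · rw [hg, val_add (val_pole h) (val_C a (-1)), zero_add]
        · exact neg_ne_zero.2 one_ne_zero
      have hfg : f * g = 1 - f := by
        rw [hg, map_neg, map_one, mul_add, mul_inv_cancel₀ hf0]
        ring
      have hg0 : g ≠ 0 := by
        intro h0
        rw [h0, mul_zero] at hfg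
        exact hf1 (sub_eq_zero.1 hfg.symm).symm
      have hlg : lg (1 - f) = lg f + lg g := by rw [← hfg, lg_mul hf0 hg0]
      rw [hlg, wdg_add, LinearMap.add_apply, wdg_wdg, zero_add]
      exact rr_V hGNA hρ hgu (by rw [lg_neg, lg_one]) j _
    · have h1 := rr_one_sub h
      rw [sub_zero] at h1
      exact rr_V hGNA hρ ⟨h1, one_ne_zero⟩ hl1 j _
    · rw [wdg_comm]
      have h1 : UnitAt a f 1 := ⟨h, one_ne_zero⟩
      have h2 := rr_V hGNA hρ h1 hl1 j (wdg (RatFunc F) j (lg (1 - f)) l)
      refine (map_neg (ρ 1 j) _).trans ?_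
      exact (congrArg Neg.neg h2).trans neg_zero

end

theorem mRRD : sGNA → sRRD := by
  intro hGNA F _ a ρ d d' hρ hd hd'
  constructor
  · intro k j w
    match k, w with
    | 0, w => rfl
    | 1, w =>
      have h : ρ 1 (j + 1) ∘ₗ d 1 (j + 1) = d' 1 j ∘ₗ ρ 2 j := by
        apply gext 0 (j + 1)
        intro x l
        change ρ 1 (j + 1) (d 1 (j + 1) (tm 0 (j + 1) x l)) =
          d' 1 j (ρ 2 j (tm 0 (j + 1) x l))
        rcases rr_cases (a := a) x with ⟨h1, h2⟩ | ⟨f, c, rfl, hf⟩
        · rw [rr_T hGNA hρ 0 j x (h1 0) l, map_zero, hd.two]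
          refine rr_L hGNA hρ x ?_ (j + 1) l
          rcases h2 with h2 | h2
          · exact Or.inl h2
          · exact Or.inr (Or.inl h2)
        · have key : (ρ 1 (j + 1) ∘ₗ d 1 (j + 1)) ∘ₗ tmL 0 (j + 1) (some f) =
              (d' 1 j ∘ₗ ρ 2 j) ∘ₗ tmL 0 (j + 1) (some f) := by
            by_cases hc1 : c = 1
            · subst hc1
              have hz : ∀ l, ρ 1 (j + 1) (d 1 (j + 1) (tm 0 (j + 1) (some f) l)) = 0 := by
                intro l
                rw [hd.two]
                exact rr_L hGNA hρ (some f) (Or.inr (Or.inr hf.1)) (j + 1) l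
              apply hGNA F (Γ F 1 (j + 1)) a j
              · intro u c hu
                change ρ 1 (j + 1) (d 1 (j + 1) (tm 0 (j + 1) (some f) _)) =
                  d' 1 j (ρ 2 j (tm 0 (j + 1) (some f) _))
                rw [hz, hρ.two0 0 j (some f) u c hu, map_zero]
              · intro u c hu
                change ρ 1 (j + 1) (d 1 (j + 1) (tm 0 (j + 1) (some f) _)) =
                  d' 1 j (ρ 2 j (tm 0 (j + 1) (some f) _))
                rw [hz, hρ.two 0 j (some f) u c hu, hd'.two, hf.1]
                have e : cl (some (1 : F)) = 0 := lg_one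
                rw [e, wdg_zero, map_zero]
                rfl
            · have hf' : UnitAt a (1 - f) (1 - c) :=
                ⟨rr_one_sub hf.1, sub_ne_zero.2 (Ne.symm hc1)⟩
              apply hGNA F (Γ F 1 (j + 1)) a j
              · intro u c' hu
                change ρ 1 (j + 1) (d 1 (j + 1) (tm 0 (j + 1) (some f) _)) =
                  d' 1 j (ρ 2 j (tm 0 (j + 1) (some f) _))
                rw [hρ.two0 0 j (some f) u c' hu, map_zero, hd.two]
                have e1 : cl1 (some f) = lg (1 - f) := rfl
                have e2 : cl (some f) = lg f := rfl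
                rw [e1, e2, wdg_pr, rr_cons, wdg_pr, rr_cons]
                exact hρ.one0 (j + 1) _ _ (rr_unit hf' (rr_unit hf hu))
              · intro u c' hu
                change ρ 1 (j + 1) (d 1 (j + 1) (tm 0 (j + 1) (some f) _)) =
                  d' 1 j (ρ 2 j (tm 0 (j + 1) (some f) _))
                rw [hρ.two 0 j (some f) u c' hu, hd'.two, hd.two, hf.1]
                have e1 : cl1 (some f) = lg (1 - f) := rfl
                have e2 : cl (some f) = lg f := rfl
                have e3 : cl1 (some c) = lg (1 - c) := rfl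
                have e4 : cl (some c) = lg c := rfl
                rw [e1, e2, e3, e4, wdg_pr, rr_snoc, wdg_pr, rr_snoc, wdg_pr, rr_cons, wdg_pr,
                  rr_cons]
                exact hρ.one (j + 1) _ _ (rr_unit hf' (rr_unit hf hu))
          exact LinearMap.congr_fun key l
      exact LinearMap.congr_fun h w
    | q + 2, w =>
      have h : ρ (q + 2) (j + 1) ∘ₗ d (q + 2) (j + 1) = d' (q + 2) j ∘ₗ ρ (q + 3) j := by
        apply gext (q + 1) (j + 1)
        intro x l
        change ρ (q + 2) (j + 1) (d (q + 2) (j + 1) (tm (q + 1) (j + 1) x l)) =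
          d' (q + 2) j (ρ (q + 3) j (tm (q + 1) (j + 1) x l))
        rcases rr_cases (a := a) x with ⟨h1, h2⟩ | ⟨f, c, rfl, hf⟩
        · rw [hd.three, rr_T hGNA hρ q (j + 1) x (h1 q)]
          have h3 := rr_T hGNA hρ (q + 1) j x (h1 (q + 1)) l
          refine Eq.symm ?_
          exact (congrArg (d' (q + 2) j) h3).trans (map_zero _)
        · have key : (ρ (q + 2) (j + 1) ∘ₗ d (q + 2) (j + 1)) ∘ₗ tmL (q + 1) (j + 1) (some f) =
              (d' (q + 2) j ∘ₗ ρ (q + 3) j) ∘ₗ tmL (q + 1) (j + 1) (some f) := by
            apply hGNA F (Γ F (q + 2) (j + 1)) a j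
            · intro u c' hu
              change ρ (q + 2) (j + 1) (d (q + 2) (j + 1) (tm (q + 1) (j + 1) (some f) _)) =
                d' (q + 2) j (ρ (q + 3) j (tm (q + 1) (j + 1) (some f) _))
              have h3 := hρ.two0 (q + 1) j (some f) u c' hu
              refine Eq.trans ?_ ((congrArg (d' (q + 2) j) h3).trans (map_zero _)).symm
              rw [hd.three]
              have e2 : cl (some f) = lg f := rfl
              rw [e2, wdg_pr, rr_cons]
              exact hρ.two0 q (j + 1) (some f) _ _ (rr_unit hf hu)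
            · intro u c' hu
              change ρ (q + 2) (j + 1) (d (q + 2) (j + 1) (tm (q + 1) (j + 1) (some f) _)) =
                d' (q + 2) j (ρ (q + 3) j (tm (q + 1) (j + 1) (some f) _))
              have h3 := hρ.two (q + 1) j (some f) u c' hu
              refine Eq.trans ?_ (congrArg (d' (q + 2) j) h3).symm
              rw [hd.three, hd'.three, hf.1]
              have e2 : cl (some f) = lg f := rfl
              have e4 : cl (some c) = lg c := rfl
              rw [e2, e4, wdg_pr, rr_snoc, wdg_pr, rr_cons]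
              refine (hρ.two q (j + 1) (some f) _ _ (rr_unit hf hu)).trans ?_
              rw [hf.1]
          exact LinearMap.congr_fun key l
      exact LinearMap.congr_fun h w
  · intro k w
    match k, w with
    | 0, w => rfl
    | 1, w =>
      have h : ρ 1 0 ∘ₗ d 1 0 = 0 := by
        apply gext 0 0
        intro x l
        change ρ 1 0 (d 1 0 (tm 0 0 x l)) = 0
        rw [hd.two]
        rcases rr_cases (a := a) x with ⟨h1, h2⟩ | ⟨f, c, rfl, hf⟩
        · refine rr_L hGNA hρ x ?_ 0 l
          rcases h2 with h2 | h2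
          · exact Or.inl h2
          · exact Or.inr (Or.inl h2)
        · by_cases hc1 : c = 1
          · subst hc1
            exact rr_L hGNA hρ (some f) (Or.inr (Or.inr hf.1)) 0 l
          · have hf' : UnitAt a (1 - f) (1 - c) :=
              ⟨rr_one_sub hf.1, sub_ne_zero.2 (Ne.symm hc1)⟩
            let ρ1 : W (RatFunc F) 2 →ₗ[ℚ] Γ F 1 0 := ρ 1 0
            have key : ρ1 ∘ₗ wdg (RatFunc F) 1 (cl1 (some f)) ∘ₗ
                wdg (RatFunc F) 0 (cl (some f)) = 0 := by
              apply wext
              intro v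
              rw [LinearMap.comp_apply, LinearMap.comp_apply, LinearMap.zero_apply]
              have e1 : cl1 (some f) = lg (1 - f) := rfl
              have e2 : cl (some f) = lg f := rfl
              have e3 : v = fun i => lg ((Fin.elim0 : Fin 0 → RatFunc F) i) := by
                funext i
                exact i.elim0
              rw [e1, e2, e3, wdg_pr, rr_cons, wdg_pr, rr_cons]
              exact hρ.one0 0 _ _ (rr_unit hf' (rr_unit hf (c := Fin.elim0) (fun i => i.elim0)))
            exact LinearMap.congr_fun key l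
      exact LinearMap.congr_fun h w
    | q + 2, w =>
      have h : ρ (q + 2) 0 ∘ₗ d (q + 2) 0 = 0 := by
        apply gext (q + 1) 0
        intro x l
        change ρ (q + 2) 0 (d (q + 2) 0 (tm (q + 1) 0 x l)) = 0
        rw [hd.three]
        rcases rr_cases (a := a) x with ⟨h1, h2⟩ | ⟨f, c, rfl, hf⟩
        · exact rr_T hGNA hρ q 0 x (h1 q) _
        · have key : (ρ (q + 2) 0 ∘ₗ tmL q 1 (some f)) ∘ₗ wdg (RatFunc F) 0 (cl (some f)) =
              0 := by
            apply wext
            intro v
            rw [LinearMap.comp_apply, LinearMap.zero_apply]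
            have e2 : cl (some f) = lg f := rfl
            have e3 : v = fun i => lg ((Fin.elim0 : Fin 0 → RatFunc F) i) := by
              funext i
              exact i.elim0
            rw [e2, e3, wdg_pr, rr_cons]
            exact hρ.two0 q 0 (some f) _ _ (rr_unit hf (c := Fin.elim0) (fun i => i.elim0))
          exact LinearMap.congr_fun key l
      exact LinearMap.congr_fun h w

end

end Pool.Agent.Helper19.HV
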